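import Mathlib

set_option autoImplicit false

open Set

namespace Pool.Agent.H315.Flow

/-- `x` is the divergence of a flow bounded by `1/2`, plus `√2`. -/
def Flow (x : ℤ × ℤ → Fin 4) (f g : ℤ → ℤ → ℝ) : Prop :=
  (∀ i j, |f i j| ≤ 1 / 2) ∧ (∀ i j, |g i j| ≤ 1 / 2) ∧
    ∀ i j, f i j - f (i - 1) j + (g i j - g i (j - 1)) = ((x (i, j) : ℕ) : ℝ) - √2

def X₀ : Set (ℤ × ℤ → Fin 4) := {x | ∃ f g : ℤ → ℤ → ℝ, Flow x f g}

lemma sqrt_two_bounds : (1 : ℝ) < √2 ∧ √2 < 2 := by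
  constructor
  · rw [Real.lt_sqrt (by norm_num)]; norm_num
  · rw [Real.sqrt_lt' (by norm_num)]; norm_num

/-- A flow bounded by `1/2` whose divergence is `-√2` modulo `1` gives a configuration. -/
lemma exists_conf (f g : ℤ → ℤ → ℝ) (hf : ∀ i j, |f i j| ≤ 1 / 2) (hg : ∀ i j, |g i j| ≤ 1 / 2)
    (h : ∀ i j, ∃ n : ℤ, f i j - f (i - 1) j + (g i j - g i (j - 1)) + √2 = n) :
    ∃ x : ℤ × ℤ → Fin 4, Flow x f g := by
  choose n hn using h
  have hb : ∀ i j, 0 ≤ n i j ∧ n i j < 4 := by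
    intro i j
    obtain ⟨h1, h2⟩ := sqrt_two_bounds
    have a1 := abs_le.1 (hf i j)
    have a2 := abs_le.1 (hf (i - 1) j)
    have a3 := abs_le.1 (hg i j)
    have a4 := abs_le.1 (hg i (j - 1))
    have e := hn i j
    constructor
    · have : (-1 : ℝ) < (n i j : ℝ) := by rw [← e]; linarith
      have : (-1 : ℤ) < n i j := by exact_mod_cast this
      omega
    · have : (n i j : ℝ) < 4 := by rw [← e]; linarith
      exact_mod_cast this
  refine ⟨fun p => ⟨(n p.1 p.2).toNat, by have := hb p.1 p.2; omega⟩, hf, hg, ?_⟩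
  intro i j
  have e := hn i j
  have h0 := (hb i j).1
  have h1 : (((n i j).toNat : ℕ) : ℝ) = (n i j : ℝ) := by
    have : (((n i j).toNat : ℕ) : ℤ) = n i j := Int.toNat_of_nonneg h0
    exact_mod_cast this
  show _ = (((n i j).toNat : ℕ) : ℝ) - √2
  rw [h1, ← e]
  ring

lemma isClosed_X₀ :
    @IsClosed _ (@Pi.topologicalSpace (ℤ × ℤ) (fun _ => Fin 4) (fun _ => ⊥)) X₀ := by
  change IsClosed X₀
  obtain ⟨K, hK⟩ : ∃ K : Set ((ℤ × ℤ → Fin 4) × (ℤ → ℤ → ℝ) × (ℤ → ℤ → ℝ)),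
    K = {q | Flow q.1 q.2.1 q.2.2} := ⟨_, rfl⟩
  obtain ⟨B, hB⟩ : ∃ B : Set (ℤ → ℤ → ℝ),
    B = Set.pi univ (fun _ : ℤ => Set.pi univ (fun _ : ℤ => Icc (-(1 / 2) : ℝ) (1 / 2))) :=
    ⟨_, rfl⟩
  have hBc : IsCompact B := by
    rw [hB]
    exact isCompact_univ_pi fun _ => isCompact_univ_pi fun _ => isCompact_Icc
  have hcpt : IsCompact ((univ : Set (ℤ × ℤ → Fin 4)) ×ˢ (B ×ˢ B)) :=
    isCompact_univ.prod (hBc.prod hBc)
  have hsub : K ⊆ (univ : Set (ℤ × ℤ → Fin 4)) ×ˢ (B ×ˢ B) := by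
    rintro ⟨x, f, g⟩ hq
    rw [hK] at hq
    obtain ⟨hf, hg, -⟩ := hq
    rw [hB]
    refine ⟨trivial, ?_, ?_⟩
    · intro i _ j _
      exact abs_le.1 (hf i j)
    · intro i _ j _
      exact abs_le.1 (hg i j)
  have hclosed : IsClosed K := by
    have hf : ∀ i j : ℤ, Continuous
        (fun q : (ℤ × ℤ → Fin 4) × (ℤ → ℤ → ℝ) × (ℤ → ℤ → ℝ) => q.2.1 i j) := by
      intro i j
      fun_prop
    have hg : ∀ i j : ℤ, Continuous
        (fun q : (ℤ × ℤ → Fin 4) × (ℤ → ℤ → ℝ) × (ℤ → ℤ → ℝ) => q.2.2 i j) := by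
      intro i j
      fun_prop
    have hx : ∀ i j : ℤ, Continuous
        (fun q : (ℤ × ℤ → Fin 4) × (ℤ → ℤ → ℝ) × (ℤ → ℤ → ℝ) => (((q.1 (i, j) : Fin 4) : ℕ) : ℝ)) := by
      intro i j
      have h1 : Continuous (fun a : Fin 4 => ((a : ℕ) : ℝ)) := continuous_of_discreteTopology
      exact h1.comp ((continuous_apply (i, j)).comp continuous_fst)
    have : K = (⋂ i : ℤ, ⋂ j : ℤ, {q | |q.2.1 i j| ≤ 1 / 2}) ∩
        ((⋂ i : ℤ, ⋂ j : ℤ, {q | |q.2.2 i j| ≤ 1 / 2}) ∩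
        (⋂ i : ℤ, ⋂ j : ℤ, {q | q.2.1 i j - q.2.1 (i - 1) j + (q.2.2 i j - q.2.2 i (j - 1)) =
          (((q.1 (i, j) : Fin 4) : ℕ) : ℝ) - √2})) := by
      rw [hK]
      ext q
      simp only [Flow, mem_ofPred_eq, mem_inter_iff, mem_iInter]
    rw [this]
    refine IsClosed.inter ?_ (IsClosed.inter ?_ ?_)
    · exact isClosed_iInter fun i => isClosed_iInter fun j =>
        isClosed_le (hf i j).abs continuous_const
    · exact isClosed_iInter fun i => isClosed_iInter fun j =>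
        isClosed_le (hg i j).abs continuous_const
    · exact isClosed_iInter fun i => isClosed_iInter fun j =>
        isClosed_eq (((hf i j).sub (hf (i - 1) j)).add ((hg i j).sub (hg i (j - 1))))
          ((hx i j).sub continuous_const)
  have hKc : IsCompact K := hcpt.of_isClosed_subset hclosed hsub
  have himg : X₀ = Prod.fst '' K := by
    ext x
    constructor
    · rintro ⟨f, g, h⟩
      exact ⟨(x, f, g), by rw [hK]; exact h, rfl⟩
    · rintro ⟨⟨y, f, g⟩, hq, rfl⟩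
      rw [hK] at hq
      exact ⟨f, g, hq⟩
  rw [himg]
  exact (hKc.image continuous_fst).isClosed

/-- `X₀` is closed under finite approximation. -/
lemma mem_of_approx {y : ℤ × ℤ → Fin 4}
    (h : ∀ B : Finset (ℤ × ℤ), ∃ z ∈ X₀, ∀ p ∈ B, z p = y p) : y ∈ X₀ := by
  have hc : IsClosed X₀ := isClosed_X₀
  by_contra hy
  obtain ⟨I, u, hu, hsub⟩ := isOpen_pi_iff.1 hc.isOpen_compl y hy
  obtain ⟨z, hz, hzy⟩ := h I
  have : z ∈ (I : Set (ℤ × ℤ)).pi u := by
    intro i hi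
    rw [hzy i hi]
    exact (hu i hi).2
  exact hsub this hz

/-! ### No periodic points -/

lemma sum_periodic (u : ℕ → ℝ) (p : ℕ) (hu : ∀ i, u (i + p) = u i) (N : ℕ) :
    ∑ i ∈ Finset.range (N * p), u i = N * ∑ i ∈ Finset.range p, u i := by
  induction N with
  | zero => simp
  | succ N ih =>
    have h1 : ∀ k i, u (k * p + i) = u i := by
      intro k i
      induction k with
      | zero => simp
      | succ k ihk =>
        rw [← ihk, ← hu (k * p + i)]
        congr 1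
        ring
    rw [Nat.succ_mul, Finset.sum_range_add, ih, Finset.sum_congr rfl (fun i _ => h1 N i)]
    push_cast
    ring

lemma telescope (u : ℤ → ℝ) (n : ℕ) :
    ∑ i ∈ Finset.range n, (u (i : ℤ) - u ((i : ℤ) - 1)) = u ((n : ℤ) - 1) - u (-1) := by
  induction n with
  | zero => simp
  | succ n ih =>
    rw [Finset.sum_range_succ, ih]
    push_cast
    have : ((n : ℤ) + 1 - 1) = (n : ℤ) := by ring
    rw [this]
    ring

lemma no_periods {x : ℤ × ℤ → Fin 4} (hx : x ∈ X₀) {p q : ℕ} (hp : 0 < p) (hq : 0 < q)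
    (hpx : ∀ i j, x (i + p, j) = x (i, j)) (hqx : ∀ i j, x (i, j + q) = x (i, j)) : False := by
  obtain ⟨f, g, hf, hg, h⟩ := hx
  obtain ⟨S, hS⟩ : ∃ S : ℕ, S = ∑ i ∈ Finset.range p, ∑ j ∈ Finset.range q,
    ((x ((i : ℤ), (j : ℤ)) : Fin 4) : ℕ) := ⟨_, rfl⟩
  have hbox : ∀ N : ℕ, ∑ i ∈ Finset.range (N * p), ∑ j ∈ Finset.range (N * q),
      (((x ((i : ℤ), (j : ℤ)) : Fin 4) : ℕ) : ℝ) = N * (N * (S : ℝ)) := by
    intro N
    have hj : ∀ i : ℕ, ∑ j ∈ Finset.range (N * q), (((x ((i : ℤ), (j : ℤ)) : Fin 4) : ℕ) : ℝ) =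
        N * ∑ j ∈ Finset.range q, (((x ((i : ℤ), (j : ℤ)) : Fin 4) : ℕ) : ℝ) := by
      intro i
      refine sum_periodic (fun j : ℕ => (((x ((i : ℤ), (j : ℤ)) : Fin 4) : ℕ) : ℝ)) q ?_ N
      intro j
      have := hqx (i : ℤ) (j : ℤ)
      show (((x ((i : ℤ), ((j + q : ℕ) : ℤ)) : Fin 4) : ℕ) : ℝ) = _
      rw [Nat.cast_add, this]
    rw [Finset.sum_congr rfl (fun i _ => hj i), ← Finset.mul_sum]
    rw [sum_periodic (fun i : ℕ => ∑ j ∈ Finset.range q,
      (((x ((i : ℤ), (j : ℤ)) : Fin 4) : ℕ) : ℝ)) p ?_ N]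
    · rw [hS]
      push_cast
      rfl
    · intro i
      refine Finset.sum_congr rfl fun j _ => ?_
      have := hpx (i : ℤ) (j : ℤ)
      show (((x (((i + p : ℕ) : ℤ), (j : ℤ)) : Fin 4) : ℕ) : ℝ) = _
      rw [Nat.cast_add, this]
  have hflow : ∀ P Q : ℕ, |∑ i ∈ Finset.range P, ∑ j ∈ Finset.range Q,
      (((x ((i : ℤ), (j : ℤ)) : Fin 4) : ℕ) : ℝ) - √2 * (P * Q)| ≤ P + Q := by
    intro P Q
    have e1 : ∑ i ∈ Finset.range P, ∑ j ∈ Finset.range Q,
        (((x ((i : ℤ), (j : ℤ)) : Fin 4) : ℕ) : ℝ) - √2 * (P * Q) =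
        ∑ j ∈ Finset.range Q, (f ((P : ℤ) - 1) j - f (-1) j) +
        ∑ i ∈ Finset.range P, (g i ((Q : ℤ) - 1) - g i (-1)) := by
      have a1 : ∑ j ∈ Finset.range Q, (f ((P : ℤ) - 1) j - f (-1) j) =
          ∑ i ∈ Finset.range P, ∑ j ∈ Finset.range Q, (f i j - f ((i : ℤ) - 1) j) := by
        rw [Finset.sum_comm]
        refine Finset.sum_congr rfl fun j _ => ?_
        exact (telescope (fun i => f i j) P).symm
      have a2 : ∑ i ∈ Finset.range P, (g i ((Q : ℤ) - 1) - g i (-1)) =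
          ∑ i ∈ Finset.range P, ∑ j ∈ Finset.range Q, (g i j - g i ((j : ℤ) - 1)) := by
        refine Finset.sum_congr rfl fun i _ => ?_
        exact (telescope (fun j => g i j) Q).symm
      rw [a1, a2, ← Finset.sum_add_distrib]
      have a3 : √2 * ((P : ℝ) * Q) = ∑ i ∈ Finset.range P, ∑ j ∈ Finset.range Q, √2 := by
        simp only [Finset.sum_const, Finset.card_range, nsmul_eq_mul]
        ring
      rw [a3, ← Finset.sum_sub_distrib]
      refine Finset.sum_congr rfl fun i _ => ?_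
      rw [← Finset.sum_sub_distrib, ← Finset.sum_add_distrib]
      refine Finset.sum_congr rfl fun j _ => ?_
      exact (h i j).symm
    rw [e1]
    have b1 : |∑ j ∈ Finset.range Q, (f ((P : ℤ) - 1) j - f (-1) j)| ≤ Q := by
      refine (Finset.abs_sum_le_sum_abs _ _).trans ?_
      have : ∀ j ∈ Finset.range Q, |f ((P : ℤ) - 1) j - f (-1) j| ≤ 1 := by
        intro j _
        have c1 := abs_le.1 (hf ((P : ℤ) - 1) j)
        have c2 := abs_le.1 (hf (-1) j)
        rw [abs_le]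
        constructor <;> linarith
      refine (Finset.sum_le_sum this).trans ?_
      simp
    have b2 : |∑ i ∈ Finset.range P, (g i ((Q : ℤ) - 1) - g i (-1))| ≤ P := by
      refine (Finset.abs_sum_le_sum_abs _ _).trans ?_
      have : ∀ i ∈ Finset.range P, |g i ((Q : ℤ) - 1) - g i (-1)| ≤ 1 := by
        intro i _
        have c1 := abs_le.1 (hg i ((Q : ℤ) - 1))
        have c2 := abs_le.1 (hg i (-1))
        rw [abs_le]
        constructor <;> linarith
      refine (Finset.sum_le_sum this).trans ?_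
      simp
    have b3 := (abs_add_le (∑ j ∈ Finset.range Q, (f ((P : ℤ) - 1) j - f (-1) j))
      (∑ i ∈ Finset.range P, (g i ((Q : ℤ) - 1) - g i (-1))))
    linarith
  -- hence `√2 = S / (p q)`
  have hmain : ∀ N : ℕ, 0 < N → |(S : ℝ) - √2 * (p * q)| * N ≤ p + q := by
    intro N hN
    have h1 := hflow (N * p) (N * q)
    rw [hbox N] at h1
    have hNr : (0 : ℝ) < N := by exact_mod_cast hN
    have e2 : (N : ℝ) * (N * (S : ℝ)) - √2 * (((N * p : ℕ) : ℝ) * ((N * q : ℕ) : ℝ)) =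
        N * (N * ((S : ℝ) - √2 * (p * q))) := by
      push_cast
      ring
    rw [e2, abs_mul, abs_mul, abs_of_pos hNr] at h1
    push_cast at h1
    have h2 : (N : ℝ) * (|(S : ℝ) - √2 * (p * q)| * N) ≤ N * (p + q) := by linarith
    exact le_of_mul_le_mul_left h2 hNr
  have hzero : (S : ℝ) - √2 * (p * q) = 0 := by
    by_contra hne
    have hpos : 0 < |(S : ℝ) - √2 * (p * q)| := abs_pos.2 hne
    obtain ⟨N, hN⟩ := exists_nat_gt (((p : ℝ) + q) / |(S : ℝ) - √2 * (p * q)|)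
    have hN' : ((p : ℝ) + q) < N * |(S : ℝ) - √2 * (p * q)| := by
      rwa [div_lt_iff₀ hpos] at hN
    have hpq : (0 : ℝ) ≤ (p : ℝ) + q := by positivity
    have hNpos : 0 < N := by
      rcases Nat.eq_zero_or_pos N with h0 | h0
      · exfalso
        rw [h0] at hN'
        simp at hN'
        linarith
      · exact h0
    have := hmain N hNpos
    linarith
  have hirr := irrational_sqrt_two
  apply hirr
  refine ⟨(S : ℚ) / (p * q), ?_⟩
  have hpr : (0 : ℝ) < p := by exact_mod_cast hp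
  have hqr : (0 : ℝ) < q := by exact_mod_cast hq
  push_cast
  rw [div_eq_iff (by positivity)]
  linarith

end Pool.Agent.H315.Flow
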